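import Mathlib
import Pool.Agent.TH344.BF.Main
import Pool.Agent.Q17.BF.Diag
import Pool.Agent.Q17.BF.One

/-!
# Tate-Shafarevich groups over multiquadratic fields in the families given by split binary forms

Let `F_0, F_1, F_2` be binary forms with integer coefficients, each the product of a constant and of
odd powers of `n` linear forms, `n ≥ 2` even, all the `3 n` linear forms pairwise non-proportional,
and `F_0 - F_1 = F_2`. For a coprime pair `t = (u, v)` let `E_t` be the elliptic curve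
`y² = x (x - F_0 (t)) (x - F_1 (t))`. There is one set `Z` of pairs of density zero such that for
all the multiquadratic number fields `K` and all `k` the average over the other pairs of
`2 ^ (k (rank E_t(K) + corank of the 2-primary part of Ш(E_t / K)))` is bounded. So the upper density
of the pairs with `rank E_t(K) + corank ≥ r` decays faster than any exponential `B ^ (-r)`, for every
multiquadratic field `K`.

The Tate-Shafarevich group over a number field is that of `Pool.Agent.TH841.NF.ShaN`: continuous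
cocycles of the absolute Galois group with values in the points over the algebraic closure, locally
trivial at all the completions of `K`, modulo the coboundaries.
-/

set_option autoImplicit false

namespace Pool.Agent.Results.MP_78d38b_nt.BinaryFormFields

open Finset Filter Topology

open Pool.Agent.TH841.NF.D (HasDiv crk rk)

/-- the value at `(u, v)` of the binary form `F_k = a_k ∏_i l_(k, i) ^ m_(k, i)`, where
`l (k, i) = (α, β)` stands for the linear form `α u + β v` -/
def form {n : ℕ} (l : Fin 3 × Fin n → ℤ × ℤ) (m : Fin 3 × Fin n → ℕ) (a : Fin 3 → ℤ) (k : Fin 3)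
    (u v : ℤ) : ℤ :=
  a k * ∏ i : Fin n, ((l (k, i)).1 * u + (l (k, i)).2 * v) ^ m (k, i)

/-- A family: an even number `n ≥ 2`, pairwise non-proportional linear forms `l_(k, i)`, odd
exponents `m_(k, i)` and constants `a_k ≠ 0` (`k = 0, 1, 2`, `1 ≤ i ≤ n`), such that the binary forms
`F_k = a_k ∏_i l_(k, i) ^ m_(k, i)` satisfy `F_0 - F_1 = F_2`. -/
structure Family where
  /-- the number of the linear forms in each `F_k` -/
  n : ℕ
  /-- the linear forms -/
  l : Fin 3 × Fin n → ℤ × ℤ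
  /-- the exponents -/
  m : Fin 3 × Fin n → ℕ
  /-- the constants -/
  a : Fin 3 → ℤ
  pos : 0 < n
  even : Even n
  odd : ∀ j, Odd (m j)
  ne : ∀ k, a k ≠ 0
  indep : ∀ i j, i ≠ j → (l i).1 * (l j).2 ≠ (l j).1 * (l i).2
  sub : ∀ u v : ℤ, form l m a 0 u v - form l m a 1 u v = form l m a 2 u v

/-- the value of `F_k` at the pair `t` -/
def Family.val (F : Family) (k : Fin 3) (t : ℤ × ℤ) : ℤ := form F.l F.m F.a k t.1 t.2

/-- The curve `y² = x³ - 27 (a² - a b + b²) x + 27 (a + b) (2 a - b) (2 b - a)` over `K`. It is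
isomorphic to `y² = x (x - a) (x - b)` (replace `x` by `9 x - 3 (a + b)` and `y` by `27 y`). -/
def E (a b : ℤ) (K : Type) [Field K] : WeierstrassCurve K :=
  ⟨0, 0, 0, ((-27 * (a ^ 2 - a * b + b ^ 2) : ℤ) : K),
    ((27 * (a + b) * (2 * a - b) * (2 * b - a) : ℤ) : K)⟩

/-- the curve `E_t` over `K` -/
def Family.curve (F : Family) (K : Type) [Field K] (t : ℤ × ℤ) : WeierstrassCurve K :=
  E (F.val 0 t) (F.val 1 t) K

open Classical in
/-- the coprime pairs `(u, v)` with `|u| ≤ X`, `|v| ≤ X` at which none of the forms vanishes -/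
noncomputable def Pairs (F : Family) (X : ℕ) : Finset (ℤ × ℤ) :=
  (Icc (-(X : ℤ)) X ×ˢ Icc (-(X : ℤ)) X).filter (fun t => IsCoprime t.1 t.2 ∧
    ∀ k, F.val k t ≠ 0)

/-- the proportion of the pairs of `S` among the pairs of height at most `X` -/
noncomputable def proportion (F : Family) (S : Set (ℤ × ℤ)) (X : ℕ) : ℝ :=
  (((Pairs F X : Set (ℤ × ℤ)) ∩ S).ncard : ℝ) / ((Pairs F X).card : ℝ)

/-- the upper density of a set of pairs -/
noncomputable def upperDensity (F : Family) (S : Set (ℤ × ℤ)) : ℝ :=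
  limsup (proportion F S) atTop

/-- the number field `K` is generated by square roots of the integers `d i` -/
def Gen (K : Type) [Field K] [NumberField K] {s : ℕ} (d : Fin s → ℤ) : Prop :=
  ∃ x : Fin s → K, (∀ i, x i ^ 2 = (d i : K)) ∧
    IntermediateField.adjoin ℚ (Set.range x) = ⊤

/-! ### An example -/

/-- the linear forms of the example -/
def l0 : Fin 3 × Fin 2 → ℤ × ℤ := fun j =>
  if j.1 = 0 then (if j.2 = 0 then (1, 1) else (1, -1))
  else if j.1 = 1 then (if j.2 = 0 then (-2, -1) else (4, 1))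
  else (if j.2 = 0 then (3, 2) else (3, 0))

/-- The family `F_0 = u² - v²`, `F_1 = u² - (3 u + v)²`, `F_2 = (3 u + v)² - v²`: the curve is
isomorphic to `y² = (x + u²) (x + v²) (x + (3 u + v)²)`. -/
def sample : Family where
  n := 2
  l := l0
  m := fun _ => 1
  a := fun _ => 1
  pos := by norm_num
  even := by decide
  odd := fun _ => odd_one
  ne := fun _ => one_ne_zero
  indep := by decide
  sub := fun u v => by
    simp only [form, Fin.prod_univ_two, l0]
    simp
    ring

/-! ### Proofs -/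

open Pool.Agent.W307.SE (Sel)
open Pool.Agent.TH344.BF (Fb Fam excb bf_ne)
open Pool.Agent.TH344.GT (EXC)
open Pool.Agent.Q17.BF (PS)

/-- the data of `TH344.BF`, twisted by `d` -/
def Family.toFam (F : Family) (d : ℤ) (hd : d ≠ 0) : Fam F.n where
  l := F.l
  m := F.m
  a := fun k => d * F.a k
  n0 := F.pos
  ne := F.even
  hm := F.odd
  ha := fun k => mul_ne_zero hd (F.ne k)
  hl := F.indep
  hF := fun u v => by
    have h := F.sub u v
    unfold form at h
    unfold Pool.Agent.TH344.SG.bf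
    linear_combination d * h

lemma bf_tw (F : Family) (d : ℤ) (hd : d ≠ 0) (k : Fin 3) (t : ℤ × ℤ) :
    Pool.Agent.TH344.SG.bf (F.toFam d hd).l (F.toFam d hd).m (F.toFam d hd).a k t.1 t.2 =
      d * F.val k t := by
  show d * F.a k * _ = d * (F.a k * _)
  rw [mul_assoc]
  rfl

lemma Fb_eq (F : Family) (d : ℤ) (hd : d ≠ 0) : Fb (F.toFam d hd) = Pairs F := by
  classical
  funext X
  unfold Fb Pairs
  apply filter_congr
  intro t _
  simp only [bf_tw, ne_eq, mul_eq_zero, hd, false_or]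

lemma exc_tw (F : Family) (d : {d : ℤ // d ≠ 0}) :
    EXC (Pairs F) (fun t => (Sel (d.1 * F.val 0 t) (d.1 * F.val 1 t)).ncard) := by
  have h := excb (F.toFam d.1 d.2)
  rw [Fb_eq] at h
  simp only [bf_tw] at h
  exact h

lemma Pairs_mono (F : Family) : Monotone (Pairs F) := by
  have h := Pool.Agent.TH344.BF.Fb_mono (F.toFam 1 one_ne_zero)
  rwa [Fb_eq] at h

lemma low (F : Family) :
    ∃ X0 : ℕ, ∀ X, X0 ≤ X → (X : ℝ) ^ 2 / 8 ≤ ((Pairs F X).card : ℝ) := by
  classical
  obtain ⟨X0, hX0⟩ := Pool.Agent.TH344.GT.cop_box (fun j => (F.l j).1) (fun j => (F.l j).2)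
    (Pool.Agent.TH344.BF.not_both (F.toFam 1 one_ne_zero))
  refine ⟨X0, fun X hX => (hX0 X hX).trans ?_⟩
  rw [← Fb_eq F 1 one_ne_zero]
  unfold Fb
  have h : (Pool.Agent.W307.RT.Box X).filter (fun t => IsCoprime t.1 t.2 ∧
      ∀ j, (F.l j).1 * t.1 + (F.l j).2 * t.2 ≠ 0) ⊆
      (Pool.Agent.W307.RT.Box X).filter (fun t => IsCoprime t.1 t.2 ∧ ∀ k,
        Pool.Agent.TH344.SG.bf (F.toFam 1 one_ne_zero).l (F.toFam 1 one_ne_zero).m
          (F.toFam 1 one_ne_zero).a k t.1 t.2 ≠ 0) := by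
    intro t ht
    rw [mem_filter] at ht ⊢
    exact ⟨ht.1, ht.2.1, (bf_ne (F.toFam 1 one_ne_zero) t).2 ht.2.2⟩
  exact_mod_cast card_le_card h

/-- one curve -/
lemma one {F : Family} {X : ℕ} {t : ℤ × ℤ} (ht : t ∈ Pairs F X) {K : Type} [Field K]
    [NumberField K] {s : ℕ} {d : Fin s → ℤ} (hK : Gen K d) (hd : ∀ i, d i ≠ 0) {q : ℕ}
    (hq : HasDiv (F.curve K t) q) :
    (2 : ℝ) ^ (rk (F.curve K t) + q) ≤ (PS d (F.val 0 t) (F.val 1 t) : ℕ) := by
  classical
  unfold Pairs at ht
  have h := (mem_filter.1 ht).2.2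
  have hne : F.val 0 t ≠ F.val 1 t := by
    intro he
    apply h 2
    have h1 := F.sub t.1 t.2
    have h2 : form F.l F.m F.a 0 t.1 t.2 = form F.l F.m F.a 1 t.1 t.2 := he
    rw [h2, sub_self] at h1
    exact h1.symm
  set a := F.val 0 t with ha
  set b := F.val 1 t with hb
  refine Pool.Agent.Q17.BF.one_curve (w := 3) (e1 := -3 * (a + b)) (e2 := 3 * (2 * a - b))
    (e3 := 3 * (2 * b - a)) hK hd (by norm_num) ?_ (fun x => by ring) ?_ ?_ (h 0) (h 1) hne hq
  · have h1 : 4 * (-27 * (a ^ 2 - a * b + b ^ 2)) ^ 3 +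
        27 * (27 * (a + b) * (2 * a - b) * (2 * b - a)) ^ 2 =
        -(531441 * (a ^ 2 * b ^ 2 * (a - b) ^ 2)) := by ring
    rw [h1]
    have h2 := h 0
    have h3 := h 1
    have h4 := sub_ne_zero.2 hne
    exact neg_ne_zero.2 (mul_ne_zero (by norm_num)
      (mul_ne_zero (mul_ne_zero (pow_ne_zero 2 h2) (pow_ne_zero 2 h3)) (pow_ne_zero 2 h4)))
  · push_cast
    ring
  · push_cast
    ring

open Classical in
/-- **Theorem.** Let `F` be a family given by split binary forms.
* At least `X² / 8` coprime pairs `t` of height at most `X` have no vanishing form, if `X` is large.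
* There is a set `Z` of pairs of density zero such that for all the number fields
  `K = ℚ(√d_1, ..., √d_s)` and all `k` there is `C` such that for all `X` the coranks of the 2-primary
  parts of the groups `Ш(E_t / K)`, `t` a pair of height at most `X`, are finite, the sum of
  `(2 ^ (rank E_t(K) + corank Ш(E_t / K)[2^∞])) ^ k` over the pairs `t` of height at most `X` outside
  of `Z` is at most `C` times the number of the pairs of height at most `X`, and at most `C / 2 ^ (k r)`
  times this number of the pairs outside of `Z` have `rank E_t(K) + corank Ш(E_t / K)[2^∞] ≥ r`.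
* For all these fields and all `B` the upper density of the pairs with
  `rank E_t(K) + corank Ш(E_t / K)[2^∞] ≥ r`, times `B ^ r`, tends to zero for `r → ∞`. -/
theorem result (F : Family) :
    (∃ X0 : ℕ, ∀ X : ℕ, X0 ≤ X → (X : ℝ) ^ 2 / 8 ≤ (Pairs F X).card) ∧
    (∃ Z : Set (ℤ × ℤ), Tendsto (proportion F Z) atTop (𝓝 0) ∧
      ∀ (s : ℕ) (d : Fin s → ℤ), (∀ i, d i ≠ 0) → ∀ k : ℕ, ∃ C : ℝ,
      ∀ (K : Type) [Field K] [NumberField K], Gen K d → ∀ X : ℕ,
        (∀ t ∈ Pairs F X, BddAbove {q | HasDiv (F.curve K t) q}) ∧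
        ∑ t ∈ (Pairs F X).filter (fun t => t ∉ Z),
          ((2 : ℝ) ^ (rk (F.curve K t) + crk (F.curve K t))) ^ k ≤ C * (Pairs F X).card ∧
        ∀ r : ℕ, (((Pairs F X).filter (fun t => t ∉ Z ∧
          r ≤ rk (F.curve K t) + crk (F.curve K t))).card : ℝ) ≤
            C * (Pairs F X).card / 2 ^ (k * r)) ∧
    ∀ (s : ℕ) (d : Fin s → ℤ), (∀ i, d i ≠ 0) → ∀ (K : Type) [Field K] [NumberField K], Gen K d →
      ∀ B : ℝ, Tendsto (fun r : ℕ => B ^ r *
        upperDensity F {t | r ≤ rk (F.curve K t) + crk (F.curve K t)}) atTop (𝓝 0) := by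
  have : Nonempty {d : ℤ // d ≠ 0} := ⟨⟨1, one_ne_zero⟩⟩
  obtain ⟨Z, hZ1, hZ2⟩ := Pool.Agent.Q17.BF.exc_all (Pairs F) (Pairs_mono F)
    (fun (d : {d : ℤ // d ≠ 0}) t => (Sel (d.1 * F.val 0 t) (d.1 * F.val 1 t)).ncard)
    (exc_tw F)
  have hPS : ∀ (s : ℕ) (d : Fin s → ℤ), (∀ i, d i ≠ 0) → ∀ k : ℕ, ∃ C : ℝ, ∀ X,
      ∑ t ∈ (Pairs F X).filter (fun t => t ∉ Z), ((PS d (F.val 0 t) (F.val 1 t) : ℕ) : ℝ) ^ k ≤
        C * (Pairs F X).card := by
    intro s d hd k
    refine Pool.Agent.Q17.BF.exc_PS (Pairs F) d (fun t => F.val 0 t) (fun t => F.val 1 t) Z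
      (fun T k => ?_) k
    exact hZ2 ⟨∏ i ∈ T, d i, prod_ne_zero_iff.2 fun i _ => hd i⟩ k
  refine ⟨low F, ⟨Z, Pool.Agent.TH344.GT.tendsto_of_eps (Pairs F) ?_, ?_⟩, ?_⟩
  · intro ε hε
    obtain ⟨X0, h⟩ := hZ1 ε hε
    exact ⟨X0, h⟩
  · intro s d hd k
    obtain ⟨C, hC⟩ := hPS s d hd k
    refine ⟨C, fun K _ _ hK X => ?_⟩
    have h := Pool.Agent.TH841.NF.famN ((Pairs F X).filter (fun t => t ∉ Z)) (fun _ => K)
      (fun t => F.curve K t) (fun t => ((PS d (F.val 0 t) (F.val 1 t) : ℕ) : ℝ)) k _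
      (fun t ht q hq => one (mem_filter.1 ht).1 hK hd hq) (hC X)
    refine ⟨fun t ht => Pool.Agent.TH841.NF.bdd_of fun q hq => one ht hK hd hq, h.2.1,
      fun r => ?_⟩
    have h1 := h.2.2 r
    rw [filter_filter] at h1
    exact h1
  · intro s d hd K _ _ hK B
    have hexc : EXC (Pairs F) (fun t => PS d (F.val 0 t) (F.val 1 t)) := by
      refine ⟨Z, fun ε hε => ?_, fun k => ?_⟩
      · obtain ⟨X0, h⟩ := hZ1 ε hε
        exact ⟨X0, fun X hX => le_trans (le_of_eq (by congr)) (h X hX)⟩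
      · obtain ⟨C, hC⟩ := hPS s d hd k
        exact ⟨C, fun X => le_trans (le_of_eq (by congr)) (hC X)⟩
    refine Pool.Agent.TH344.GT.tail (Pairs F) hexc 1
      (S := fun r => {t | r ≤ rk (F.curve K t) + crk (F.curve K t)}) (fun r X t ht hr => ?_) B
    rw [pow_one]
    have h1 := one ht hK hd (Pool.Agent.TH841.NF.crk_mem
      (Pool.Agent.TH841.NF.bdd_of fun q hq => one ht hK hd hq))
    have h2 : 2 ^ (rk (F.curve K t) + crk (F.curve K t)) ≤ PS d (F.val 0 t) (F.val 1 t) := by
      exact_mod_cast h1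
    exact (Nat.pow_le_pow_right (by norm_num) hr).trans h2

end Pool.Agent.Results.MP_78d38b_nt.BinaryFormFields
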