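import Pool.Agent.Q6.XM.ShaK
import Pool.Agent.Y73.QMQ1

/-!
# The 2-primary part of the Tate-Shafarevich group of twists of `X_0(49)` over multiquadratic fields

`E_M : y² = x³ - 35 M² x - 98 M³` is the quadratic twist by `M` of the curve `X_0(49)`, with complex
multiplication by `ℤ[(1 + √-7) / 2]`. A number `D` is admissible if it is squarefree and all its prime
factors are `≡ 1 mod 4`, and free if there is no obstruction: a divisor `d > 1` of `D` whose prime
factors split in `ℚ(√-7)`, which is a square modulo all the other prime factors of `D` that split in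
`ℚ(√-7)`, and such that for the primes `p ∣ d` the number `D / d` is a square modulo `p` if and only if
`-7` is a fourth power modulo `p`.

A pair `(M, K)`, `K = ℚ(√d_1, …, √d_n)` of degree `2ⁿ`, is good if for each of the `2ⁿ` products
`M ∏_{i ∈ T} d_i` the squarefree part is admissible and free. For all the good pairs the 2-primary part
of `Ш(E_M/K)` is finite and killed by `2ⁿ`. (For `n = 0` this says that `Ш(E_M/ℚ)[2^∞] = 0`.)

Exact proportions: let the class consist of the `D ≥ 1`, squarefree, whose prime factors are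
`≡ 1 mod 8` and split in `ℚ(√-7)`, or `≡ 5 mod 8` and inert in `ℚ(√-7)`, and let the family be the
subset `D ≡ 1 mod 8`. For every `K = ℚ(√d_1, …, √d_n)` and `M` of the class the pair `(M D, K)` is good
for exactly the proportion `c ^ (2ⁿ)` of the `D` of the family, where
`c = ∏_{i ≥ 0} (1 - 2^{-(2i+1)}) = 0.4194…`, so that `Ш(E_{M D}/K)[2^∞]` is finite and killed by `2ⁿ` for
at least this proportion; and if `(M, K)` is good, then `(M, K(√D))` is good for exactly the proportion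
`c ^ (2ⁿ)` of the `D` of the family, and `Ш(E_M/K(√D))[2^∞]` is finite and killed by `2ⁿ⁺¹` for at least
this proportion.

The proof: the complete 2-descent on the twists over `ℚ` (`Pool.Agent.Q6.XK`), the comparison of
`Ш(E_M/K)` with the `2ⁿ` groups over `ℚ` (`Pool.Agent.Y723.QT`), the joint distribution of the
matrices of the symmetric differences (`Pool.Agent.Y687.JQ`). For the good pairs with `M` admissible the
rank and the order of vanishing of the `L`-function over `K` are `0` (file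
`Results/MP_32c55d_nt/MultiquadraticX049.lean`; not used here).
-/

set_option autoImplicit false

open NumberField IsDedekindDomain Filter Topology

namespace Pool.Agent.Results.MP_78d38b_nt.MultiquadraticShaX049

/-- The short equation of the twist by an integer `M`: `y² = x³ - 35 M² x - 98 M³`. -/
def short (M : ℤ) (F : Type) [Field F] : WeierstrassCurve F :=
  { a₁ := 0, a₂ := 0, a₃ := 0, a₄ := ((-35 * M ^ 2 : ℤ) : F), a₆ := ((-98 * M ^ 3 : ℤ) : F) }

/-- `D` is squarefree and all its prime factors are `1` modulo `4` -/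
def Admissible (D : ℕ) : Prop := Squarefree D ∧ ∀ p : ℕ, p.Prime → p ∣ D → p % 4 = 1

/-- the obstructions: `d > 1` divides `D`, its prime factors split in `ℚ(√-7)`, it is a square modulo
the other prime factors of `D` that split in `ℚ(√-7)`, and for the primes `p ∣ d` the number `D / d` is
a square modulo `p` if and only if `-7` is a fourth power modulo `p` -/
def Obstruction (D d : ℕ) : Prop := d ∣ D ∧ 1 < d ∧
  (∀ p : ℕ, p.Prime → p ∣ d → IsSquare (-7 : ZMod p)) ∧
  (∀ p : ℕ, p.Prime → p ∣ D → ¬ p ∣ d → IsSquare (-7 : ZMod p) → IsSquare (d : ZMod p)) ∧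
  ∀ p : ℕ, p.Prime → p ∣ d → (IsSquare ((D / d : ℕ) : ZMod p) ↔ ∃ y : ZMod p, y ^ 4 = -7)

/-- there is no obstruction -/
def Free (D : ℕ) : Prop := ∀ d, ¬ Obstruction D d

/-- `z` is, up to squares, an admissible number without obstruction -/
def GoodNumber (z : ℤ) : Prop :=
  ∃ (D : ℕ) (k : ℤ), Admissible D ∧ Free D ∧ k ≠ 0 ∧ z = D * k ^ 2

/-- `d_1, …, d_n` are independent modulo squares: `ℚ(√d_1, …, √d_n)` has degree `2ⁿ` -/
def Independent {n : ℕ} (d : Fin n → ℤ) : Prop :=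
  ∀ T : Finset (Fin n), T.Nonempty → ¬ IsSquare (∏ i ∈ T, d i)

/-- the pairs of `M` and `ℚ(√d_1, …, √d_n)`, of degree `2ⁿ`, such that all the numbers
`M ∏_{i ∈ T} d_i` are good -/
def GoodPair {n : ℕ} (M : ℤ) (d : Fin n → ℤ) : Prop :=
  Independent d ∧ ∀ T : Finset (Fin n), GoodNumber (M * ∏ i ∈ T, d i)

/-- `K = ℚ(√d_1, …, √d_n)` -/
def IsMultiquadratic {n : ℕ} (d : Fin n → ℤ) (K : Type) [Field K] [NumberField K] : Prop :=
  ∃ x : Fin n → K, (∀ i, x i ^ 2 = (d i : K)) ∧ IntermediateField.adjoin ℚ (Set.range x) = ⊤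

/-- `D` is squarefree, its prime factors are `1` modulo `8` and split in `ℚ(√-7)`, or `5` modulo `8` and
inert in `ℚ(√-7)` -/
def Class (D : ℕ) : Prop := Squarefree D ∧ ∀ p : ℕ, p.Prime → p ∣ D →
  (p % 8 = 1 ∧ (p % 7 = 1 ∨ p % 7 = 2 ∨ p % 7 = 4)) ∨
  (p % 8 = 5 ∧ (p % 7 = 3 ∨ p % 7 = 5 ∨ p % 7 = 6))

/-- `z` is in the class up to squares -/
def InClass (z : ℤ) : Prop := ∃ (D : ℕ) (k : ℤ), Class D ∧ k ≠ 0 ∧ z = D * k ^ 2

/-- the family: the numbers of the class which are `1` modulo `8` -/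
def Family (D : ℕ) : Prop := Class D ∧ D % 8 = 1

/-- the proportion `(1 - 1/2) (1 - 1/8) (1 - 1/32) ⋯` -/
noncomputable def c : ℝ := ∏' i : ℕ, (1 - (1 / 2 : ℝ) ^ (2 * i + 1))

open Classical in
/-- the proportion of the `D ≤ X` with `P D` among those of the family -/
noncomputable def prop (P : ℕ → Prop) (X : ℕ) : ℝ :=
  (((Finset.Icc 1 X).filter fun D : ℕ => Family D ∧ P D).card : ℝ) /
    (((Finset.Icc 1 X).filter fun D : ℕ => Family D).card : ℝ)

/-- the elements of 2-power order form a finite group -/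
def TwoPrimaryFinite (G : Type) [AddCommGroup G] : Prop :=
  {x : G | ∃ k : ℕ, (2 ^ k : ℕ) • x = 0}.Finite

/-- the elements of `2`-power order of `Ш(E_M/K)` are finite in number and killed by `2ⁿ` -/
def ShaFinite (K : Type) [Field K] [NumberField K] (n : ℕ) (M : ℤ) : Prop :=
  TwoPrimaryFinite (Pool.Agent.TH841.NF.D.Sha (short M K)) ∧
  ∀ (k : ℕ) (x : Pool.Agent.TH841.NF.D.Sha (short M K)),
    (2 ^ k : ℕ) • x = 0 → (2 ^ n : ℕ) • x = 0

/-- `E_D(ℚ)` is finite and `Ш(E_D/ℚ)` has no element of order two -/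
def RankZeroShaTwo (D : ℤ) : Prop :=
  Finite (short D ℚ).toAffine.Point ∧
    ∀ x : Pool.Agent.TH841.SH.D.Sha (short D ℚ), 2 • x = 0 → x = 0

section proof

open Pool.Agent.Q6

lemma fam_iff (D : ℕ) : Family D ↔ XK.Fam D := by
  unfold Family Class XK.Fam
  tauto

lemma class_CL {D : ℕ} (h : Class D) : XM.CL D.primeFactors := by
  intro p hp
  obtain ⟨k1, k2, -⟩ := Nat.mem_primeFactors.1 hp
  exact ⟨k1, h.2 p k1 k2⟩

lemma inClass {z : ℤ} (h : InClass z) : XM.Cz z := by
  obtain ⟨D, k, hD, hk, rfl⟩ := h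
  refine ⟨D.primeFactors, k, class_CL hD, hk, ?_⟩
  rw [XM.pf_CL hD.1 (class_CL hD)]

open Classical in
lemma prop_eq (P : ℕ → Prop) (X : ℕ) : prop P X =
    (((Finset.Icc 1 X).filter fun D : ℕ => XK.Fam D ∧ P D).card : ℝ) /
    (((Finset.Icc 1 X).filter fun D : ℕ => XK.Fam D).card : ℝ) := by
  unfold prop
  have e1 : ((Finset.Icc 1 X).filter fun D : ℕ => Family D ∧ P D) =
      (Finset.Icc 1 X).filter fun D : ℕ => XK.Fam D ∧ P D :=
    Finset.filter_congr fun D _ => by rw [fam_iff]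
  have e2 : ((Finset.Icc 1 X).filter fun D : ℕ => Family D) =
      (Finset.Icc 1 X).filter fun D : ℕ => XK.Fam D :=
    Finset.filter_congr fun D _ => by rw [fam_iff]
  rw [e1, e2]

lemma prop_mono {P Q : ℕ → Prop} (h : ∀ D, P D → Q D) (X : ℕ) : prop P X ≤ prop Q X := by
  classical
  unfold prop
  refine div_le_div_of_nonneg_right ?_ (Nat.cast_nonneg _)
  refine Nat.cast_le.2 (Finset.card_le_card ?_)
  intro D hD
  rw [Finset.mem_filter] at hD ⊢
  exact ⟨hD.1, hD.2.1, h D hD.2.2⟩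

lemma low (f : ℕ → ℝ) (a : ℝ) (hf : Tendsto f atTop (𝓝 a)) (δ : ℝ) (hδ : 0 < δ) :
    ∃ X₀ : ℕ, ∀ X : ℕ, X₀ ≤ X → a - δ ≤ f X := by
  have h := hf.eventually (lt_mem_nhds (show a - δ < a by linarith))
  obtain ⟨X₀, hX⟩ := eventually_atTop.1 h
  exact ⟨X₀, fun X hX' => (hX X hX').le⟩

lemma good_one : GoodPair 1 (![] : Fin 0 → ℤ) := by
  refine ⟨fun T hT => ?_, fun T => ?_⟩
  · obtain ⟨i, -⟩ := hT
    exact i.elim0
  · refine ⟨1, 1, ⟨squarefree_one, fun p hp h => ?_⟩, fun d hd => ?_, one_ne_zero, ?_⟩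
    · exact absurd (Nat.dvd_one.1 h) hp.one_lt.ne'
    · have := Nat.dvd_one.1 hd.1
      have := hd.2.1
      omega
    · have : T = ∅ := Finset.eq_empty_of_isEmpty T
      rw [this]
      simp

lemma pair_sha {n : ℕ} {M : ℤ} {d : Fin n → ℤ} (hd : GoodPair M d) (K : Type) [Field K]
    [NumberField K] (hK : IsMultiquadratic d K) : Module.finrank ℚ K = 2 ^ n ∧ ShaFinite K n M := by
  obtain ⟨x, hx, hK⟩ := hK
  refine ⟨?_, ?_⟩
  · have := Pool.Agent.Y73.QMQ1.gal_of hx hK
    rw [← IsGalois.card_aut_eq_finrank]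
    exact Pool.Agent.Y73.QMQ1.card_gal hd.1 hx hK
  · exact XM.sha_field hd.1 hd.2 K hx hK

end proof

/-- **The theorem.** -/
theorem result :
    (∀ (n : ℕ) (M : ℤ) (d : Fin n → ℤ), GoodPair M d → ∀ (K : Type) [Field K] [NumberField K],
      IsMultiquadratic d K → Module.finrank ℚ K = 2 ^ n ∧ ShaFinite K n M) ∧
    (∀ D : ℕ, Admissible D → (Free D ↔ RankZeroShaTwo D)) ∧
    (∀ (n : ℕ) (M : ℤ) (d : Fin n → ℤ), Independent d → (∀ i, InClass (d i)) → InClass M →
      Tendsto (prop fun D => GoodPair (M * D) d) atTop (𝓝 (c ^ 2 ^ n)) ∧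
      ∀ (K : Type) [Field K] [NumberField K], IsMultiquadratic d K → ∀ δ : ℝ, 0 < δ →
        ∃ X₀ : ℕ, ∀ X : ℕ, X₀ ≤ X → c ^ 2 ^ n - δ ≤ prop (fun D => ShaFinite K n (M * D)) X) ∧
    (∀ (n : ℕ) (M : ℤ) (d : Fin n → ℤ), GoodPair M d → (∀ i, InClass (d i)) → InClass M →
      Tendsto (prop fun D => GoodPair M (Fin.snoc d (D : ℤ) : Fin (n + 1) → ℤ)) atTop
        (𝓝 (c ^ 2 ^ n)) ∧
      ∀ δ : ℝ, 0 < δ → ∃ X₀ : ℕ, ∀ X : ℕ, X₀ ≤ X → c ^ 2 ^ n - δ ≤ prop (fun D =>
        ∀ (K : Type) [Field K] [NumberField K],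
          IsMultiquadratic (Fin.snoc d (D : ℤ) : Fin (n + 1) → ℤ) K →
          Module.finrank ℚ K = 2 ^ (n + 1) ∧ ShaFinite K (n + 1) M) X) ∧
    GoodPair 1 (![] : Fin 0 → ℤ) ∧ 0.4194 < c ∧ c < 0.4195 := by
  classical
  refine ⟨fun n M d hd K _ _ hK => pair_sha hd K hK,
    fun D hD => ?_, fun n M d hi hd hM => ?_, fun n M d hg hd hM => ?_, good_one,
    Pool.Agent.Y948.CQ.t_C2.2.2.2.1, Pool.Agent.Y948.CQ.t_C2.2.2.2.2⟩
  · have h := Pool.Agent.Q6.XK.triv_crit hD
    refine h.symm.trans (and_congr Iff.rfl (forall_congr' fun x => ?_))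
    rw [two_nsmul]
    rfl
  · have h := Pool.Agent.Q6.XM.prop_field hi (fun i => inClass (hd i)) (inClass hM)
    have h' : Tendsto (prop fun D => GoodPair (M * D) d) atTop (𝓝 (c ^ 2 ^ n)) := by
      refine h.congr fun X => ?_
      rw [prop_eq]
      congr 3
      refine Finset.filter_congr fun D _ => and_congr_right fun _ => ?_
      exact ⟨fun h => ⟨hi, h⟩, fun h => h.2⟩
    refine ⟨h', fun K _ _ hK δ hδ => ?_⟩
    obtain ⟨X₀, hX⟩ := low _ _ h' δ hδ
    exact ⟨X₀, fun X hX' => (hX X hX').trans (prop_mono (fun D hD => (pair_sha hD K hK).2) X)⟩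
  · have h := Pool.Agent.Q6.XM.prop_ext hg.1 (fun i => inClass (hd i)) (inClass hM) hg.2
    have h' : Tendsto (prop fun D => GoodPair M (Fin.snoc d (D : ℤ) : Fin (n + 1) → ℤ)) atTop
        (𝓝 (c ^ 2 ^ n)) := by
      refine h.congr fun X => ?_
      rw [prop_eq]
      congr 3
      exact Finset.filter_congr fun D _ => Iff.rfl
    refine ⟨h', fun δ hδ => ?_⟩
    obtain ⟨X₀, hX⟩ := low _ _ h' δ hδ
    refine ⟨X₀, fun X hX' => (hX X hX').trans (prop_mono (fun D hD => ?_) X)⟩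
    intro K _ _ hK
    exact pair_sha hD K hK

end Pool.Agent.Results.MP_78d38b_nt.MultiquadraticShaX049
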