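import Mathlib
import Pool.Agent.TH841.PM.PenZ
import Pool.Agent.TH841.PM.Fin2

/-!
# Tate-Shafarevich groups in one-parameter families over varying multiquadratic fields

`W_t : y² = (x - e₁(t)) (x - e₂(t)) (x - e₃(t)) = x³ + A(t) x + B(t)`, where
`e₂ - e₁ = D₀ u₀`, `e₃ - e₁ = D₀ u₁`, and `u₀`, `u₁`, `u₂ = u₀ - u₁` are polynomials with integer
coefficients, `u_k` being a constant times a product of `n_k` irreducible polynomials, these
`n₀ + n₁ + n₂` irreducible polynomials being pairwise different and not dividing `D₀`. The curve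
`W_t` is considered over the field `F_t = ℚ(√D₁(t), ..., √D_s(t))` with arbitrary `D₁, ..., D_s` not
divisible by them either. If `2 n_k < n₀ + n₁ + n₂` for `k = 0, 1, 2`, all the moments of
`2 ^ (rank W_t(F_t) + corank of the 2-primary part of Ш(W_t / F_t))` are bounded outside of a set of
density zero.
-/

set_option autoImplicit false

namespace Pool.Agent.Results.MP_78d38b_nt.PencilsOverVaryingFields

open Finset Polynomial

open Pool.Agent.TH841.NF.D (HasDiv crk rk)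

/-- the curve `y² = x³ + A x + B` over `F` -/
def EF (A B : ℤ) (F : Type) [Field F] : WeierstrassCurve F := ⟨0, 0, 0, (A : F), (B : F)⟩

/-- the number field `F` is generated by square roots of the integers `d i` -/
def Gen (F : Type) [Field F] [NumberField F] {s : ℕ} (d : Fin s → ℤ) : Prop :=
  ∃ x : Fin s → F, (∀ i, x i ^ 2 = (d i : F)) ∧
    IntermediateField.adjoin ℚ (Set.range x) = ⊤

/-- `u_k = a_k ∏ f_{k,i}` -/
noncomputable def u {n : Fin 3 → ℕ} (a : Fin 3 → ℤ) (f : ∀ k : Fin 3, Fin (n k) → ℤ[X])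
    (k : Fin 3) : ℤ[X] := C (a k) * ∏ i, f k i

open Classical in
/-- a set of integers of density zero, uniformly in all the intervals `(N, N + M]` with
`|N| ≤ M ^ L`, for every `L` -/
def DensityZero (Z : Set ℤ) : Prop := ∀ (L : ℕ) (ε : ℝ), 0 < ε → ∃ M₀ : ℕ, ∀ (N : ℤ) (M : ℕ),
  M₀ ≤ M → |N| ≤ (M : ℤ) ^ L → (((Ioc N (N + (M : ℤ))).filter (fun t => t ∈ Z)).card : ℝ) ≤ ε * M

open Classical in
/-- **Theorem.** Let `u_k = a_k ∏_{i < n_k} f_{k,i}`, `k = 0, 1, 2`, with `u₀ - u₁ = u₂`, where the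
`a_k` are nonzero and the `n₀ + n₁ + n₂` polynomials `f_{k,i}` with integer coefficients are
irreducible of positive degree and pairwise non-associated, and `2 n_k < n₀ + n₁ + n₂` for all `k`;
let `D₀, ..., D_s` be nonzero polynomials with integer coefficients that are divisible by none of the
`f_{k,i}`. Let `x³ + A x + B = (x - e₁) (x - e₂) (x - e₃)` with polynomials `A`, `B`, `e_i` in `t`, such
that `e₂ - e₁ = D₀ u₀` and `e₃ - e₁ = D₀ u₁`. There is a set `Z` of density zero such that outside of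
`Z` the `D_i(t)` and `(D₀ u_k)(t)` are nonzero, and for all `k` and `L` there is `C` such that for
`M ≥ 1`, `|N| ≤ M ^ L` and all number fields `F t = ℚ(√D₁(t), ..., √D_s(t))` the following holds for
the curves `W t : y² = x³ + A(t) x + B(t)` over `F t` and the `t` in `(N, N + M]` outside of `Z`: the
coranks of the 2-primary parts of `Ш(W_t / F_t)` are finite, the sum of
`2 ^ (k (rank W_t(F_t) + corank Ш(W_t / F_t)[2^∞]))` is at most `C M`, and at most
`C M / 2 ^ (k m)` of these `t` have `rank W_t(F_t) + corank Ш(W_t / F_t)[2^∞] ≥ m`. -/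
theorem result (n : Fin 3 → ℕ) (a : Fin 3 → ℤ) (f : ∀ k : Fin 3, Fin (n k) → ℤ[X])
    (ha : ∀ k, a k ≠ 0) (hf : ∀ k i, Irreducible (f k i) ∧ 0 < (f k i).natDegree)
    (hff : ∀ k i l j, (⟨k, i⟩ : Σ k : Fin 3, Fin (n k)) ≠ ⟨l, j⟩ → ¬ Associated (f k i) (f l j))
    (hu : u a f 0 - u a f 1 = u a f 2) (hn : ∀ k, 2 * n k < n 0 + n 1 + n 2)
    (s : ℕ) (D₀ : ℤ[X]) (hD₀ : D₀ ≠ 0) (hDf₀ : ∀ k i, ¬ f k i ∣ D₀)
    (D : Fin s → ℤ[X]) (hD : ∀ i, D i ≠ 0) (hDf : ∀ l k i, ¬ f k i ∣ D l)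
    (A B e₁ e₂ e₃ : ℤ[X])
    (he : ∀ t x : ℤ, x ^ 3 + A.eval t * x + B.eval t =
      (x - e₁.eval t) * (x - e₂.eval t) * (x - e₃.eval t))
    (h12 : e₂ - e₁ = D₀ * u a f 0) (h13 : e₃ - e₁ = D₀ * u a f 1) :
    ∃ Z : Set ℤ, DensityZero Z ∧
      (∀ t, t ∉ Z → (∀ k, (D₀ * u a f k).eval t ≠ 0) ∧ ∀ i, (D i).eval t ≠ 0) ∧
      ∀ k L : ℕ, ∃ C : ℝ, ∀ (N : ℤ) (M : ℕ), 1 ≤ M → |N| ≤ (M : ℤ) ^ L → ∀ P : Finset ℤ,
        P = (Ioc N (N + (M : ℤ))).filter (fun t => t ∉ Z) →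
        ∀ (F : ℤ → Type) [∀ t, Field (F t)] [∀ t, NumberField (F t)],
        (∀ t ∈ P, Gen (F t) (fun i => (D i).eval t)) →
        ∀ W : ∀ t, WeierstrassCurve (F t), (∀ t, W t = EF (A.eval t) (B.eval t) (F t)) →
        (∀ t ∈ P, BddAbove {q | HasDiv (W t) q}) ∧
        ∑ t ∈ P, ((2 : ℝ) ^ (rk (W t) + crk (W t))) ^ k ≤ C * M ∧
        ∀ m : ℕ, ((P.filter (fun t => m ≤ rk (W t) + crk (W t))).card : ℝ) ≤
          C * M / 2 ^ (k * m) := by
  have hirr : Pool.Agent.TH841.PT.Irr (Pool.Agent.TH841.TR.fp f) :=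
    ⟨fun x => (hf x.1 x.2).1, fun x => (hf x.1 x.2).2, fun x y hxy => hff x.1 x.2 y.1 y.2 hxy⟩
  exact Pool.Agent.TH841.PM.penZF Pool.Agent.TH841.PM.tavz a f ha hirr hu hn s D₀ hD₀ hDf₀ D hD hDf
    A B e₁ e₂ e₃ he h12 h13

end Pool.Agent.Results.MP_78d38b_nt.PencilsOverVaryingFields
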